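import Pool.Agent.Helper57.MT.Goals

/-!
# Packet MC2-ZG: expansion of the product
-/

set_option autoImplicit false

open Finset Filter Topology

open scoped Classical

namespace Pool.Agent.Helper19.MT

open Pool.Agent.Helper57.MT

lemma prod_pf (T : Finset ℕ) (hT : ∀ l ∈ T, l.Prime) :
    (∏ l ∈ T, l).primeFactors = T := Nat.primeFactors_prod hT

lemma prod_sqf (T : Finset ℕ) (hT : ∀ l ∈ T, l.Prime) : Squarefree (∏ l ∈ T, l) := by
  have h : Set.Pairwise (T : Set ℕ) (Function.onFun IsRelPrime (fun l : ℕ => l)) := by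
    intro a ha b hb hab
    exact Nat.coprime_iff_isRelPrime.1 ((Nat.coprime_primes (hT a ha) (hT b hb)).2 hab)
  exact Finset.squarefree_prod_of_pairwise_isCoprime h (fun l hl => (hT l hl).squarefree)

/-- **Packet ZG.** -/
theorem zg : StmtZG := by
  intro K1 L h H hL
  have hL0 : (0 : ℝ) < L := by exact_mod_cast hL
  set I := ((Ioc K1 L).filter Nat.Prime).filter (fun l => Ht H l h) with hI
  have hIp : ∀ l ∈ I, l.Prime ∧ K1 < l ∧ l ≤ L ∧ Ht H l h := by
    intro l hl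
    rw [hI, mem_filter, mem_filter, mem_Ioc] at hl
    exact ⟨hl.1.2, hl.1.1.1, hl.1.1.2, hl.2⟩
  have h1 : ∏ l ∈ (Ioc K1 L).filter Nat.Prime, (if Ht H l h then 1 + 2 / (l : ℝ) else 1) =
      ∑ T ∈ I.powerset, ∏ l ∈ T, 2 / (l : ℝ) := by
    rw [← Finset.prod_filter, ← hI, Finset.prod_one_add]
  rw [h1, ← Finset.sum_filter_add_sum_filter_not I.powerset (fun T => ∏ l ∈ T, l ≤ L ^ 2)]
  refine add_le_add ?_ ?_
  · -- small products
    have hterm : ∀ T ∈ I.powerset.filter (fun T => ∏ l ∈ T, l ≤ L ^ 2),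
        ∏ l ∈ T, 2 / (l : ℝ) = (2 : ℝ) ^ (∏ l ∈ T, l).primeFactors.card /
          ((∏ l ∈ T, l : ℕ) : ℝ) *
          (if ∀ l, l.Prime → l ∣ (∏ l ∈ T, l) → Ht H l h then 1 else 0) := by
      intro T hT
      rw [mem_filter, mem_powerset] at hT
      have hTp : ∀ l ∈ T, l.Prime := fun l hl => (hIp l (hT.1 hl)).1
      rw [if_pos, mul_one, prod_pf T hTp, Finset.prod_div_distrib, Finset.prod_const]
      · push_cast
        rfl
      · intro l hl hd
        have h2 : l ∈ (∏ l ∈ T, l).primeFactors :=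
          Nat.mem_primeFactors.2 ⟨hl, hd, Finset.prod_ne_zero_iff.2 fun l hl => (hTp l hl).ne_zero⟩
        rw [prod_pf T hTp] at h2
        exact (hIp l (hT.1 h2)).2.2.2
    have hmap : ∀ T ∈ I.powerset.filter (fun T => ∏ l ∈ T, l ≤ L ^ 2), ∏ l ∈ T, l ∈ SE K1 L := by
      intro T hT
      rw [mem_filter, mem_powerset] at hT
      have hTp : ∀ l ∈ T, l.Prime := fun l hl => (hIp l (hT.1 hl)).1
      unfold SE
      rw [mem_filter, mem_Icc]
      refine ⟨⟨Nat.one_le_iff_ne_zero.2 (Finset.prod_ne_zero_iff.2 fun l hl =>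
        (hTp l hl).ne_zero), hT.2⟩, prod_sqf T hTp, ?_⟩
      intro l hl hd
      have h2 : l ∈ (∏ l ∈ T, l).primeFactors :=
        Nat.mem_primeFactors.2 ⟨hl, hd, Finset.prod_ne_zero_iff.2 fun l hl => (hTp l hl).ne_zero⟩
      rw [prod_pf T hTp] at h2
      exact ⟨(hIp l (hT.1 h2)).2.1, (hIp l (hT.1 h2)).2.2.1⟩
    have hinj : Set.InjOn (fun T : Finset ℕ => ∏ l ∈ T, l)
        (I.powerset.filter (fun T => ∏ l ∈ T, l ≤ L ^ 2) : Set (Finset ℕ)) := by
      intro T hT T' hT' heq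
      rw [Finset.mem_coe, mem_filter, mem_powerset] at hT hT'
      have hTp : ∀ l ∈ T, l.Prime := fun l hl => (hIp l (hT.1 hl)).1
      have hTp' : ∀ l ∈ T', l.Prime := fun l hl => (hIp l (hT'.1 hl)).1
      have h2 := congrArg Nat.primeFactors heq
      dsimp only at h2
      rwa [prod_pf T hTp, prod_pf T' hTp'] at h2
    rw [Finset.sum_congr rfl hterm]
    rw [← Finset.sum_image (f := fun e : ℕ => (2 : ℝ) ^ e.primeFactors.card / (e : ℝ) *
      (if ∀ l, l.Prime → l ∣ e → Ht H l h then 1 else 0)) (g := fun T : Finset ℕ => ∏ l ∈ T, l)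
      hinj]
    refine Finset.sum_le_sum_of_subset_of_nonneg ?_ ?_
    · intro e he
      rw [mem_image] at he
      obtain ⟨T, hT, rfl⟩ := he
      exact hmap T hT
    · intro e _ _
      split_ifs
      · positivity
      · simp
  · -- large products
    have hlt : ∀ T ∈ I.powerset.filter (fun T => ¬ ∏ l ∈ T, l ≤ L ^ 2),
        ∏ l ∈ T, 2 / (l : ℝ) ≤ 1 / L * ∏ l ∈ T, 2 / √(l : ℝ) := by
      intro T hT
      rw [mem_filter, mem_powerset, not_le] at hT
      have h2 : ∏ l ∈ T, 2 / (l : ℝ) = (∏ l ∈ T, 2 / √(l : ℝ)) * (1 / √((∏ l ∈ T, l : ℕ) : ℝ)) := by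
        push_cast
        rw [Real.sqrt_prod T (fun l _ => Nat.cast_nonneg l), one_div, ← Finset.prod_inv_distrib,
          ← Finset.prod_mul_distrib]
        refine Finset.prod_congr rfl fun l hl => ?_
        have hl0 : (0 : ℝ) < l := by exact_mod_cast (hIp l (hT.1 hl)).1.pos
        have hs : √(l : ℝ) * √(l : ℝ) = l := Real.mul_self_sqrt hl0.le
        have hs0 : (0 : ℝ) < √(l : ℝ) := Real.sqrt_pos.2 hl0
        rw [div_eq_mul_inv, div_eq_mul_inv, mul_assoc, ← mul_inv, hs]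
      rw [h2, mul_comm]
      refine mul_le_mul_of_nonneg_right ?_ (Finset.prod_nonneg fun l _ => by positivity)
      refine one_div_le_one_div_of_le hL0 ?_
      have h3 : ((L : ℝ)) ^ 2 ≤ ((∏ l ∈ T, l : ℕ) : ℝ) := by exact_mod_cast hT.2.le
      calc (L : ℝ) = √((L : ℝ) ^ 2) := (Real.sqrt_sq hL0.le).symm
        _ ≤ _ := Real.sqrt_le_sqrt h3
    refine (Finset.sum_le_sum hlt).trans ?_
    rw [← Finset.mul_sum]
    refine mul_le_mul_of_nonneg_left ?_ (by positivity)
    have h2 : ∑ T ∈ I.powerset.filter (fun T => ¬ ∏ l ∈ T, l ≤ L ^ 2), ∏ l ∈ T, 2 / √(l : ℝ) ≤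
        ∑ T ∈ I.powerset, ∏ l ∈ T, 2 / √(l : ℝ) :=
      Finset.sum_le_sum_of_subset_of_nonneg (filter_subset _ _) fun T _ _ =>
        Finset.prod_nonneg fun l _ => by positivity
    refine h2.trans ?_
    rw [← Finset.prod_one_add, hI, Finset.prod_filter]
    have h3 : ∀ l : ℕ, (1 : ℝ) ≤ (if Ht H l h then 1 + 2 / √(l : ℝ) else 1) := by
      intro l
      split_ifs
      · have : 0 ≤ 2 / √(l : ℝ) := by positivity
        linarith
      · exact le_refl _
    refine Finset.prod_le_prod_of_subset_of_one_le ?_ (fun l _ => le_trans zero_le_one (h3 l))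
      (fun l _ _ => h3 l)
    intro l hl
    rw [mem_filter, mem_Ioc] at hl
    rw [mem_filter, mem_Icc]
    exact ⟨⟨by omega, hl.1.2⟩, hl.2⟩

end Pool.Agent.Helper19.MT
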